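import Mathlib
import Pool.Agent.Y268.D3.Stm2

/-!
# The core mean
-/

set_option autoImplicit false

open scoped ComplexOrder InnerProductSpace ComplexConjugate Topology
open Finset Filter

noncomputable section

namespace Y394.D3Core

open H759R2.Kad H711R2.KG Y268.D3

section basics

variable {B : Type} [CStarAlgebra B] {K : Type} [NormedAddCommGroup K] [InnerProductSpace ℂ K]

theorem isHom_vmap [CompleteSpace K] {w : B →ₗ[ℂ] (K →L[ℂ] K)} (hw : IsHom w) :
    IsHom (vmap w) where
  mul a b := by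
    rw [vmap_apply, vmap_apply, vmap_apply, star_mul, hw.mul, star_mul]
  one := by
    rw [vmap_apply, star_one, hw.one, star_one]

theorem hom_apply {w : B →ₗ[ℂ] (K →L[ℂ] K)} (hw : IsHom w) (a b : B) (ξ : K) :
    w (a * b) ξ = w a (w b ξ) := by
  rw [hw.mul]
  rfl

theorem fin_const {Γ : Type} [Fintype Γ] [Nonempty Γ] (φ : Γ → ℂ) (ψ : Γ ≃ Γ) :
    (Mean.fin Γ).E (fun i => φ (ψ i)) = (Mean.fin Γ).E φ := by
  rw [Mean.fin_E, Mean.fin_E, Equiv.sum_comp ψ φ]

end basics

/-- The core mean. -/
def core {B : Type} [CStarAlgebra B] {Γ : Type} [Fintype Γ] [Nonempty Γ] (g : Γ → unitary B)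
    (E₁ E₂ : Mean (unitary B)) : Mean (unitary B) :=
  ((Mean.fin Γ).prod ((Mean.fin Γ).prod (E₁.prod E₂))).map
    (fun p => g p.1 * star p.2.2.2 * p.2.2.1 * g p.2.1)

theorem core_E {B : Type} [CStarAlgebra B] {Γ : Type} [Fintype Γ] [Nonempty Γ]
    (g : Γ → unitary B) (E₁ E₂ : Mean (unitary B)) (φ : unitary B → ℂ) :
    (core g E₁ E₂).E φ = (Mean.fin Γ).E (fun i => (Mean.fin Γ).E (fun j =>
      E₁.E (fun b => E₂.E (fun a => φ (g i * star a * b * g j))))) := rfl

theorem prove_core : S_real → S_cb → S_clos → S_collapse → S_core := by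
  intro _ _ hclos hcol B _ _ _ τ hτ hD hO K _ _ _ w hw γ hγ hb Γ _ _ g hg
  have hw' : IsHom (vmap w) := isHom_vmap hw
  have hb' : ∀ b, ‖vmap w b‖ ≤ γ * ‖b‖ := by
    intro b
    rw [vmap_apply, norm_star]
    exact (hb (star b)).trans (by rw [norm_star])
  obtain ⟨X₂, q₂, E₂, hX₂, hcl₂, hcv₂, hq₂, hinv₂, hE₂, hc₂, ha₂⟩ :=
    hcol B τ hτ hD hO K w hw γ hγ hb Γ g hg
  obtain ⟨X₁, q₁, E₁, hX₁, hcl₁, hcv₁, hq₁, hinv₁, hE₁, hc₁, ha₁⟩ :=
    hcol B τ hτ hD hO K (vmap w) hw' γ hγ hb' Γ g hg
  refine ⟨q₁, q₂, E₁, E₂, core g E₁ E₂, hX₁ hq₁, hX₂ hq₂, hE₁, hE₂, hc₁ q₁ hq₁, hc₂ q₂ hq₂, ha₁,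
    ha₂, ?_, ?_, ?_⟩
  · intro V ζ ζ'
    rw [core_E]
    have key : ∀ i j, E₁.E (fun b => E₂.E (fun a =>
        q₁ (vmap w ((V : B) * ((g i * star a * b * g j : unitary B) : B)) ζ)
          (vmap w ((V : B) * ((g i * star a * b * g j : unitary B) : B)) ζ'))) = q₁ ζ ζ' := by
      intro i j
      have hm : act (vmap w) ((V * g i : unitary B) : B) q₁ ∈ X₁ := hinv₁ q₁ hq₁ (V * g i)
      have hm2 := hclos B K (vmap w) hw' γ hγ hb' X₁ hX₁ hcl₁ hcv₁ hinv₁ (unitary B) E₂
        (fun a => star a) _ hm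
      have h1 := hc₁ _ hm2 (vmap w (g j : B) ζ) (vmap w (g j : B) ζ')
      have h2 : q₁ (vmap w (g j : B) ζ) (vmap w (g j : B) ζ') = q₁ ζ ζ' := by
        have := congrFun (congrFun (ha₁ j) ζ) ζ'
        exact this
      rw [← h2, ← h1]
      congr 1
      funext b
      congr 1
      funext a
      have e : (V : B) * ((g i * star a * b * g j : unitary B) : B) =
          ((V * g i : unitary B) : B) * (((star a : unitary B) : B) * ((b : B) * (g j : B))) := by
        push_cast
        simp only [mul_assoc]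
      rw [e]
      simp only [hom_apply hw', act]
    simp only [key]
    rw [Mean.const, Mean.const]
  · intro V ζ ζ'
    rw [core_E]
    obtain ⟨φ, hφ⟩ := hg.inv
    have key : ∀ i j, E₁.E (fun b => E₂.E (fun a =>
        q₂ (w ((V : B) * star ((g i * star a * b * g j : unitary B) : B)) ζ)
          (w ((V : B) * star ((g i * star a * b * g j : unitary B) : B)) ζ'))) = q₂ ζ ζ' := by
      intro i j
      have h0 : ∀ b : unitary B, E₂.E (fun a =>
          q₂ (w ((V : B) * star ((g i * star a * b * g j : unitary B) : B)) ζ)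
          (w ((V : B) * star ((g i * star a * b * g j : unitary B) : B)) ζ')) = q₂ ζ ζ' := by
        intro b
        have hm : act w ((V * star (g j) * star b : unitary B) : B) q₂ ∈ X₂ :=
          hinv₂ q₂ hq₂ (V * star (g j) * star b)
        have h1 := hc₂ _ hm (w (g (φ i) : B) ζ) (w (g (φ i) : B) ζ')
        have h2 : q₂ (w (g (φ i) : B) ζ) (w (g (φ i) : B) ζ') = q₂ ζ ζ' := by
          have := congrFun (congrFun (ha₂ (φ i)) ζ) ζ'
          exact this
        rw [← h2, ← h1]
        congr 1
        funext a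
        have e : (V : B) * star ((g i * star a * b * g j : unitary B) : B) =
            ((V * star (g j) * star b : unitary B) : B) * ((a : B) * (g (φ i) : B)) := by
          rw [hφ i]
          push_cast
          simp only [star_mul, star_star, mul_assoc]
        rw [e]
        simp only [hom_apply hw, act]
      simp only [h0]
      rw [Mean.const]
    simp only [key]
    rw [Mean.const, Mean.const]
  · intro h φ
    obtain ⟨ψl, hl⟩ := hg.left h
    obtain ⟨ψr, hr⟩ := hg.right h
    constructor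
    · rw [core_E, core_E]
      rw [← fin_const (fun i => (Mean.fin Γ).E (fun j =>
        E₁.E (fun b => E₂.E (fun a => φ (g i * star a * b * g j))))) ψl]
      congr 1
      funext i
      congr 1
      funext j
      congr 1
      funext b
      congr 1
      funext a
      rw [hl i]
      simp only [mul_assoc]
    · rw [core_E, core_E]
      congr 1
      funext i
      rw [← fin_const (fun j =>
        E₁.E (fun b => E₂.E (fun a => φ (g i * star a * b * g j)))) ψr]
      congr 1
      funext j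
      congr 1
      funext b
      congr 1
      funext a
      rw [hr j]
      simp only [mul_assoc]

end Y394.D3Core
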